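import Pool.Agent.TH266.UM.Stmts

/-!
# CH : the choice of the parameters (job 5031)
-/

set_option autoImplicit false

namespace Pool.Agent.TH266.UM

open Finset


/-- the power of four next to `n / 9` -/
theorem CH_exists_pow (a0 n : ℕ) (h : 9 * 4 ^ a0 ≤ n) :
    ∃ a : ℕ, a0 ≤ a ∧ 9 * 4 ^ a ≤ n ∧ n < 9 * 4 ^ (a + 1) := by
  by_contra hc
  push Not at hc
  have h1 : ∀ b : ℕ, 9 * 4 ^ (a0 + b) ≤ n := by
    intro b
    induction b with
    | zero => simpa using h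
    | succ b ih => exact hc (a0 + b) (by omega) ih
  have h2 := h1 n
  have h3 : n < 4 ^ n := Nat.lt_pow_self (by norm_num)
  have h4 : 4 ^ n ≤ 4 ^ (a0 + n) := Nat.pow_le_pow_right (by norm_num) (by omega)
  omega

theorem ch : S_CH := by
  intro P N hP
  set M : ℕ := N + 4 * P ^ 2 + P + 2 with hM
  refine ⟨9 * 4 ^ M, fun n hn => ?_⟩
  obtain ⟨a, ha, h1, h2⟩ := CH_exists_pow M n hn
  have hk0 : M < 2 ^ a := lt_of_le_of_lt ha (Nat.lt_pow_self (by norm_num))
  have h4 : (4 : ℕ) ^ a = (2 ^ a) ^ 2 := by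
    rw [show (4 : ℕ) = 2 ^ 2 by norm_num, ← pow_mul, ← pow_mul, mul_comm]
  refine ⟨2 ^ a, by omega, ?_, by rw [← h4]; exact h1, ?_, ?_⟩
  · rw [Nat.even_pow]
    exact ⟨even_two, by omega⟩
  · rw [← h4]
    have : 4 ^ (a + 1) = 4 * 4 ^ a := by ring
    omega
  intro η hη
  set k : ℕ := 2 ^ a with hk
  have hPR : (10 : ℝ) ≤ P := by exact_mod_cast hP
  have hkP : 4 * P ^ 2 ≤ k := by omega
  have hkPR : 4 * (P : ℝ) ^ 2 ≤ k := by exact_mod_cast hkP
  have hkR : (0 : ℝ) < k := by nlinarith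
  have hn1 : 9 * (k : ℝ) ^ 2 ≤ n := by
    have : 9 * k ^ 2 ≤ n := by rw [← h4]; exact h1
    exact_mod_cast this
  have hn2 : (n : ℝ) < 36 * (k : ℝ) ^ 2 := by
    have : n < 36 * k ^ 2 := by
      rw [← h4]
      have : 4 ^ (a + 1) = 4 * 4 ^ a := by ring
      omega
    exact_mod_cast this
  have hs1 : 3 * (k : ℝ) ≤ √(n : ℝ) := by
    apply Real.le_sqrt_of_sq_le
    nlinarith
  have hs2 : √(n : ℝ) < 6 * (k : ℝ) := by
    rw [Real.sqrt_lt' (by positivity)]
    nlinarith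
  obtain ⟨K, hK, hK1, hK2⟩ := exists_irrational_btwn
    (show 3 * √(n : ℝ) < 3 * √(n : ℝ) + min η (1 / 2) by
      have : 0 < min η (1 / 2) := lt_min hη (by norm_num)
      linarith)
  have hm1 := min_le_left η (1 / 2)
  have hm2 := min_le_right η (1 / 2)
  set U : ℝ := K - k * (4 + 1 / P) with hU
  set w : ℤ := ⌊(U - 1) / 2⌋ with hw
  set v : ℤ := 2 * w + 1 with hv
  have hw1 : (w : ℝ) ≤ (U - 1) / 2 := Int.floor_le _
  have hw2 : (U - 1) / 2 < w + 1 := Int.lt_floor_add_one _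
  have hvR : (v : ℝ) = 2 * w + 1 := by rw [hv]; push_cast; ring
  have hv1 : (v : ℝ) ≤ U := by rw [hvR]; linarith
  have hv2 : U - 2 < v := by rw [hvR]; linarith
  have hP0 : (0 : ℝ) < P := by linarith
  have hδeq : (K - v) / k - 4 - 1 / P = (U - v) / k := by
    rw [hU]
    field_simp
    ring
  have hd0 : 0 ≤ (U - v) / k := div_nonneg (by linarith) hkR.le
  have hd1 : (U - v) / k * (P : ℝ) ^ 2 ≤ 1 := by
    rw [div_mul_eq_mul_div, div_le_one hkR]
    have : (U - v) * (P : ℝ) ^ 2 ≤ 2 * (P : ℝ) ^ 2 :=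
      mul_le_mul_of_nonneg_right (by linarith) (by positivity)
    linarith [sq_nonneg (P : ℝ)]
  have hd2 : (U - v) / k ≤ 1 := by
    have h5 : (1 : ℝ) ≤ (P : ℝ) ^ 2 := by nlinarith
    calc (U - v) / k = (U - v) / k * 1 := (mul_one _).symm
      _ ≤ (U - v) / k * (P : ℝ) ^ 2 := mul_le_mul_of_nonneg_left h5 hd0
      _ ≤ 1 := hd1
  have hPi : 1 / (P : ℝ) ≤ 1 / 10 := by
    apply one_div_le_one_div_of_le (by norm_num) hPR
  have hPi0 : 0 < 1 / (P : ℝ) := by positivity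
  refine ⟨v, K, (K - v) / k, (K - v) / k - 4 - 1 / P, ?_, ?_, ?_, ?_, ?_, hK1, by linarith⟩
  · refine ⟨hP, by omega, ?_, by linarith, by linarith, by ring, ?_, ?_⟩
    · rw [mul_div_cancel₀ _ hkR.ne']
      ring
    · rw [hδeq]; exact hd0
    · rw [hδeq]; exact hd1
  · rw [hk]
    push_cast
    apply IsCoprime.pow_left
    refine ⟨-w, 1, ?_⟩
    rw [hv]
    ring
  · have h5 : Irrational (K - v) := hK.sub_intCast v
    exact h5.div_natCast (by omega)
  · have : (K - v) / k = 4 + 1 / P + (U - v) / k := by rw [← hδeq]; ring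
    rw [this]
    linarith
  · have : (K - v) / k = 4 + 1 / P + (U - v) / k := by rw [← hδeq]; ring
    rw [this]
    linarith

end Pool.Agent.TH266.UM
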